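import Pool.Graph.R_seed8.H723R2.LSWDens
import Pool.Agent.H620.Inf2.Side
import Pool.Agent.H620.Inf2.Depth

/-!
# Integers in completely invariant sets of an entire `3x+1` map, and circuits of small depth

Let `f₀` be the entire function of Letherman, Schleicher and Wood which interpolates the `3x+1` map on the integers. For a set
`V` of complex numbers and `s = 1` or `s = -1` let `Ints s V` be the set of the positive integers `n` with `s n ∈ V`.

Theorem. (1) Let `V` be completely invariant under `f₀`, for example a basin of attraction, the union of the Fatou components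
of the backward and forward orbit of a component, or of all wandering domains, the escaping set, or any union of such sets.
Then `Ints s V` is empty, or the set of all positive integers, or it is hard: for all `0 < γ < 1 / 2`,

(a) its total influence on the `k` lowest binary digits, that is the mean number of the binary digits of `n < 2 ^ k` whose
change moves `n` from the set to the complement or back, is larger than `k ^ γ` for infinitely many `k`.

(b) For infinitely many `k` and all `D ≥ 2` with `(D - 1) (log log k + 1) ≤ γ log k`, each circuit of depth at most `D` (with gates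
NOT, AND, OR of unbounded fan-in) and size at most `exp (k ^ (γ / (D - 1)))` is wrong about the membership in the set for
more than `2 ^ k / k ^ (1 - γ)` of the `n < 2 ^ k`.

(2) Unconditionally, the set of the `n` such that `-n` is in the basin of attraction of the superattracting cycle of `-1`,
of `-5` or of `-17` is hard.

(3) No integer is in a wandering domain of `f₀` (this is Q1) if and only if for both signs the set of the `n` such that `s n`
is in a wandering domain is in (nonuniform) `AC0`; also if and only if both sets are decided by circuits of polynomial size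
and of depth `a log k / log log k`, for some `a < 1 / 2`; also if and only if both can be decided up to a small proportion
`1 / k ^ (1 - γ)` of exceptions by circuits as in (b).

Proof. (b) follows from (a) and from the bound of Linial, Mansour, Nisan and Boppana for the total influence of circuits of
small depth. For (a), suppose that the total influence is small. Then there is a window `[J, J + b)` of digits, of the
length `b = k ^ δ'`, whose influences are small. Now the values after `J` steps for `n = 2 ^ J U + L` are of the form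
`3 ^ o U + v`, for `0 ≤ v < 3 ^ o`, and the values of two lower parts `L`, `L'` with `v`, `v'` near to
each other coalesce after `b` steps for at least half of the digits in the window. So the membership
of `n` is given, for most `n`, by the majority in the part of the partition of the `L` by `o` and by the quotient of `v` by
`3 ^ μ`. Comparing two such partitions, with pairs of levels `{o, o + 1}` shifted by one, one finds that the membership is a
function of the integer part `q` of `3 ^ (o₀ - μ) n / 2 ^ J` only, for most `n < 2 ^ k`, and the same as that of `3 ^ μ q + r`.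
The composition of such statements through all the scales contradicts the existence of the natural density of the set,
which is neither `0` nor `1`.
-/

set_option autoImplicit false

namespace Pool.Agent.Results.MP_071ec9_an.InvariantSetsCircuits

open Filter Topology
open DomAC0 (Circuit)
open Pool.Agent.H384R2.Fatou

/-- The entire function of Letherman, Schleicher and Wood; `f₀ n = T n` for every integer `n`, where `T` is the `3x+1` function. -/
noncomputable def f₀ (z : ℂ) : ℂ :=
  z / 2 + (z + 1 / 2) * ((1 - Complex.cos (Real.pi * z)) / 2) +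
    1 / Real.pi * (1 / 2 - Complex.cos (Real.pi * z)) * Complex.sin (Real.pi * z)

/-- The positive integers `n` such that `s n` is in the set `V` of complex numbers, for `s = 1` or `s = -1`. -/
def Ints (s : ℤ) (V : Set ℂ) : Set ℕ := {n | 1 ≤ n ∧ (((s * (n : ℤ) : ℤ)) : ℂ) ∈ V}

/-- The basin of attraction of the cycle of `a`: `a` is a periodic point, and the orbit of `z` converges to its cycle. -/
def Basin (a : ℂ) : Set ℂ :=
  {z | ∃ p k : ℕ, 0 < p ∧ f₀^[p] a = a ∧ Tendsto (fun m : ℕ => f₀^[k + p * m] z) atTop (𝓝 a)}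

/-- The complex numbers whose Fatou component is a wandering domain of `f₀`. -/
def Wandering : Set ℂ := {z | IsWanderingDomain f₀ (FatouComponent f₀ z)}

/-- The `k` lowest binary digits of `n`. -/
def digits (k n : ℕ) : Fin k → Bool := fun i => n.testBit i

/-- The total influence of `S` on the integers with `k` binary digits: the mean, for `n < 2 ^ k`, of the number of the
`i < k` such that exactly one of `n` and the integer `n xor 2 ^ i`, obtained by changing the digit `i` of `n`, is in `S`. -/
noncomputable def influence (S : Set ℕ) (k : ℕ) : ℝ :=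
  ({p : ℕ × ℕ | p.1 < 2 ^ k ∧ p.2 < k ∧ ¬ (p.1 ∈ S ↔ p.1 ^^^ 2 ^ p.2 ∈ S)}.ncard : ℝ) / 2 ^ k

/-- The number of the `n < 2 ^ k` for which the circuit `Γ` is wrong about the membership in `S`. -/
noncomputable def errors (S : Set ℕ) {k : ℕ} (Γ : Circuit (Fin k)) : ℕ :=
  {n : ℕ | n < 2 ^ k ∧ ¬ (Γ.eval (digits k n) = true ↔ n ∈ S)}.ncard

/-- `S` is hard: for each `0 < c < 1 / 2`, the total influence of `S` is larger than `k ^ c` for infinitely many `k`, and, for
infinitely many `k` and all `D ≥ 2` with `(D - 1) (log log k + 1) ≤ c log k`, each circuit of depth at most `D` and size at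
most `exp (k ^ (c / (D - 1)))` is wrong about the membership in `S` for more than `2 ^ k / k ^ (1 - c)` of the `n < 2 ^ k`. -/
def Hard (S : Set ℕ) : Prop := ∀ c : ℝ, 0 < c → c < 1 / 2 →
  (∃ᶠ k : ℕ in atTop, (k : ℝ) ^ c < influence S k) ∧
  ∃ᶠ k : ℕ in atTop, ∀ D : ℕ, 2 ≤ D → ((D : ℝ) - 1) * (Real.log (Real.log k) + 1) ≤ c * Real.log k →
    ∀ Γ : Circuit (Fin k), Γ.depth ≤ D → (Γ.size : ℝ) ≤ Real.exp ((k : ℝ) ^ (c / ((D : ℝ) - 1))) →
      (2 : ℝ) ^ k / (k : ℝ) ^ (1 - c) < errors S Γ

/-- `S` is in `AC0`: the membership of the integers `1 ≤ n < 2 ^ k` is decided by circuits of constant depth and polynomial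
size. -/
def AC0 (S : Set ℕ) : Prop :=
  ∃ D A : ℕ, ∀ k : ℕ, 1 ≤ k → ∃ Γ : Circuit (Fin k), Γ.depth ≤ D ∧ Γ.size ≤ k ^ A ∧
    ∀ n, 1 ≤ n → n < 2 ^ k → (Γ.eval (digits k n) = true ↔ n ∈ S)

/-- For all large `k`, the membership of the integers `1 ≤ n < 2 ^ k` in `S` is decided by circuits of polynomial size and
of depth at most `a log k / log log k`, where `a < 1 / 2`. -/
def Poly (S : Set ℕ) : Prop :=
  ∃ (A : ℕ) (a : ℝ), a < 1 / 2 ∧ ∀ᶠ k : ℕ in atTop, ∃ Γ : Circuit (Fin k), Γ.size ≤ k ^ A ∧
    (Γ.depth : ℝ) ≤ a * (Real.log k / Real.log (Real.log k)) ∧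
    ∀ n, 1 ≤ n → n < 2 ^ k → (Γ.eval (digits k n) = true ↔ n ∈ S)

/-- For some `0 < c < 1 / 2` and all large `k` there are a `D ≥ 2` with `(D - 1) (log log k + 1) ≤ c log k` and a circuit of
depth at most `D` and size at most `exp (k ^ (c / (D - 1)))` that is wrong about the membership in `S` for at most
`2 ^ k / k ^ (1 - c)` of the `n < 2 ^ k`. -/
def Approx (S : Set ℕ) : Prop :=
  ∃ c : ℝ, 0 < c ∧ c < 1 / 2 ∧ ∀ᶠ k : ℕ in atTop, ∃ D : ℕ, 2 ≤ D ∧
    ((D : ℝ) - 1) * (Real.log (Real.log k) + 1) ≤ c * Real.log k ∧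
    ∃ Γ : Circuit (Fin k), Γ.depth ≤ D ∧ (Γ.size : ℝ) ≤ Real.exp ((k : ℝ) ^ (c / ((D : ℝ) - 1))) ∧
      (errors S Γ : ℝ) ≤ (2 : ℝ) ^ k / (k : ℝ) ^ (1 - c)

open Pool.Agent.H620
open Pool.Agent.H723R2.LSW (T f₀_int f₀_iter Wild wandering_iff wild_iter wild_mer Mer)

/-- the integers of an invariant set -/
theorem large {S : Set ℤ} (hS : ∀ x : ℤ, x ∈ S ↔ T x ∈ S) {s : ℤ} (hs : s = 1 ∨ s = -1) {A : Set ℕ}
    (hA : ∀ n : ℕ, 1 ≤ n → (n ∈ A ↔ s * (n : ℤ) ∈ S)) (h1 : ∃ n ∈ A, 1 ≤ n) (h2 : ∃ n, 1 ≤ n ∧ n ∉ A) :
    Inf2.Large (fun n => n ∈ A) := by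
  obtain ⟨m, hmA, hm⟩ := h1
  obtain ⟨m', hm', hmA'⟩ := h2
  have hss : s * s = 1 := by rcases hs with rfl | rfl <;> norm_num
  have hinv : Pool.Agent.H499R2.ND.Inv 1 S := hS
  refine Inf2.Large.congr (g := fun n : ℕ => s * (n : ℤ) ∈ S) (fun n hn => hA n hn) fun η hη =>
    Inf2.side_influence hs hinv ⟨s * m, ?_, (hA m hm).1 hmA⟩ ⟨s * m', ?_, fun g => hmA' ((hA m' hm').2 g)⟩ η hη
  · rw [← mul_assoc, hss, one_mul]; exact_mod_cast hm
  · rw [← mul_assoc, hss, one_mul]; exact_mod_cast hm'

theorem hard {S : Set ℕ} (h : Inf2.Large (fun j => j ∈ S)) : Hard S := fun _ hγ0 hγ =>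
  ⟨Inf2.large_infl h hγ, Inf2.large_depth h hγ0 hγ⟩

theorem wild_T (x : ℤ) : Wild x ↔ Wild (T x) := by
  constructor
  · intro h
    exact wild_iter h 1
  · intro h
    exact wild_mer (a := T x) (b := x) ⟨0, 1, rfl⟩ h

theorem basin_T (a z : ℂ) : z ∈ Basin a ↔ f₀ z ∈ Basin a := by
  constructor
  · rintro ⟨p, k, hp, ha, h⟩
    refine ⟨p, k + (p - 1), hp, ha, ?_⟩
    have h1 := (tendsto_add_atTop_iff_nat (f := fun m : ℕ => f₀^[k + p * m] z) 1).2 h
    refine h1.congr fun m => ?_
    rw [← Function.iterate_succ_apply]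
    congr 2
    rw [mul_add, mul_one]
    omega
  · rintro ⟨p, k, hp, ha, h⟩
    refine ⟨p, k + 1, hp, ha, h.congr fun m => ?_⟩
    rw [← Function.iterate_succ_apply]
    congr 2
    omega

theorem f₀_iterate (n : ℤ) (k : ℕ) : f₀^[k] (n : ℂ) = ((T^[k] n : ℤ) : ℂ) := f₀_iter n k

theorem basin_int {a n : ℤ} : (n : ℂ) ∈ Basin a → ∃ k, T^[k] n = a := by
  rintro ⟨p, k, _, _, h⟩
  have h1 : ∀ᶠ m : ℕ in atTop, dist (f₀^[k + p * m] (n : ℂ)) (a : ℂ) < 1 := (Metric.tendsto_nhds.1 h) 1 one_pos
  obtain ⟨m, hm⟩ := h1.exists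
  refine ⟨k + p * m, ?_⟩
  rw [f₀_iterate, dist_eq_norm] at hm
  have h2 : ‖((T^[k + p * m] n - a : ℤ) : ℂ)‖ < 1 := by push_cast; exact hm
  rw [Complex.norm_intCast] at h2
  have h3 : |T^[k + p * m] n - a| < 1 := by exact_mod_cast h2
  have h4 := Int.abs_lt_one_iff.1 h3
  omega

theorem basin_self {a : ℤ} {p : ℕ} (hp : 0 < p) (ha : T^[p] a = a) : (a : ℂ) ∈ Basin a := by
  have h1 : f₀^[p] (a : ℂ) = a := by rw [f₀_iterate, ha]
  refine ⟨p, 0, hp, h1, ?_⟩
  have h2 : ∀ m : ℕ, f₀^[0 + p * m] (a : ℂ) = a := by
    intro m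
    rw [zero_add, Function.iterate_mul]
    exact Function.iterate_fixed h1 m
  simp only [h2]
  exact tendsto_const_nhds

/-- (1) Let `V` be completely invariant under `f₀`. For `s = 1` and `s = -1` the set of the positive integers `n` with
`s n ∈ V` is empty, or the set of all positive integers, or hard.

(2) The sets of the positive integers `n` such that `-n` is in the basin of attraction of `-1`, `-5` or `-17` are hard.

(3) The following are equivalent: no integer is in a wandering domain of `f₀` (Q1); for both signs `s` the set of the `n`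
such that `s n` is in a wandering domain is in `AC0`; both sets are decided by circuits of polynomial size and depth at most
`a log k / log log k`, where `a < 1 / 2`; both are decided up to a proportion `1 / k ^ (1 - c)` of exceptions by circuits of
the size and depth in the definition of `Hard`. -/
theorem result :
    (∀ V : Set ℂ, (∀ z, z ∈ V ↔ f₀ z ∈ V) → ∀ s : ℤ, (s = 1 ∨ s = -1) →
      Ints s V = ∅ ∨ Ints s V = {n | 1 ≤ n} ∨ Hard (Ints s V)) ∧
    (∀ a : ℤ, (a = -1 ∨ a = -5 ∨ a = -17) → Hard (Ints (-1) (Basin a))) ∧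
    List.TFAE [∀ n : ℤ, ¬ IsWanderingDomain f₀ (FatouComponent f₀ n),
      ∀ s : ℤ, (s = 1 ∨ s = -1) → AC0 (Ints s Wandering),
      ∀ s : ℤ, (s = 1 ∨ s = -1) → Poly (Ints s Wandering),
      ∀ s : ℤ, (s = 1 ∨ s = -1) → Approx (Ints s Wandering)] := by
  have hInt : ∀ (s : ℤ) (V : Set ℂ) (n : ℕ), 1 ≤ n →
      (n ∈ Ints s V ↔ s * (n : ℤ) ∈ {x : ℤ | (x : ℂ) ∈ V}) := fun s V n hn => ⟨fun h => h.2, fun h => ⟨hn, h⟩⟩
  have hinv : ∀ V : Set ℂ, (∀ z, z ∈ V ↔ f₀ z ∈ V) → ∀ x : ℤ, x ∈ {x : ℤ | (x : ℂ) ∈ V} ↔ T x ∈ {x : ℤ | (x : ℂ) ∈ V} := by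
    intro V hV x
    show (x : ℂ) ∈ V ↔ ((T x : ℤ) : ℂ) ∈ V
    rw [hV x]
    have : f₀ (x : ℂ) = ((T x : ℤ) : ℂ) := f₀_int x
    rw [this]
  refine ⟨fun V hV s hs => ?_, fun a ha => ?_, ?_⟩
  · by_cases h1 : Ints s V = ∅
    · exact Or.inl h1
    · by_cases h2 : Ints s V = {n | 1 ≤ n}
      · exact Or.inr (Or.inl h2)
      · right; right
        apply hard
        refine large (hinv V hV) hs (hInt s V) ?_ ?_
        · obtain ⟨n, hn⟩ := Set.nonempty_iff_ne_empty.2 h1
          exact ⟨n, hn, hn.1⟩
        · by_contra hcon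
          push Not at hcon
          exact h2 (Set.Subset.antisymm (fun n hn => hn.1) fun n hn => hcon n hn)
  · apply hard
    refine large (hinv (Basin a) (basin_T a)) (Or.inr rfl) (hInt (-1) (Basin a)) ?_ ?_
    · have hper : ∃ p : ℕ, 0 < p ∧ T^[p] a = a := by
        rcases ha with rfl | rfl | rfl
        · exact ⟨1, by norm_num, by decide⟩
        · exact ⟨3, by norm_num, by decide⟩
        · exact ⟨11, by norm_num, by decide⟩
      obtain ⟨p, hp, hpa⟩ := hper
      have hneg : a < 0 := by rcases ha with rfl | rfl | rfl <;> norm_num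
      refine ⟨a.natAbs, ⟨by omega, ?_⟩, by omega⟩
      have e : (-1 : ℤ) * (a.natAbs : ℤ) = a := by omega
      rw [e]
      exact basin_self hp hpa
    · by_cases h1 : a = -1
      · subst h1
        refine ⟨5, by norm_num, fun h => ?_⟩
        obtain ⟨k, hk⟩ := basin_int h.2
        have h2 : ∀ k : ℕ, T^[k] ((-1 : ℤ) * ((5 : ℕ) : ℤ)) = -5 ∨ T^[k] ((-1 : ℤ) * ((5 : ℕ) : ℤ)) = -7 ∨
            T^[k] ((-1 : ℤ) * ((5 : ℕ) : ℤ)) = -10 := by
          intro k
          induction k with
          | zero => left; rfl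
          | succ k ih =>
            rw [Function.iterate_succ_apply']
            rcases ih with h | h | h
            · right; left; rw [h]; rfl
            · right; right; rw [h]; rfl
            · left; rw [h]; rfl
        have h3 := h2 k
        rw [hk] at h3
        omega
      · refine ⟨1, by norm_num, fun h => ?_⟩
        obtain ⟨k, hk⟩ := basin_int h.2
        have h2 : ∀ k : ℕ, T^[k] ((-1 : ℤ) * ((1 : ℕ) : ℤ)) = -1 := by
          intro k
          induction k with
          | zero => rfl
          | succ k ih => rw [Function.iterate_succ_apply', ih]; rfl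
        rw [h2 k] at hk
        exact h1 hk.symm
  · have hw : ∀ x : ℤ, IsWanderingDomain f₀ (FatouComponent f₀ x) ↔ Wild x := fun x => wandering_iff x
    have hq : (∀ n : ℤ, ¬ IsWanderingDomain f₀ (FatouComponent f₀ n)) ↔
        ∀ s : ℤ, (s = 1 ∨ s = -1) → Ints s Wandering = ∅ := by
      constructor
      · intro h s _
        rw [Set.eq_empty_iff_forall_notMem]
        rintro n ⟨_, hn⟩
        exact h _ hn
      · intro h n hn
        rcases lt_trichotomy n 0 with h0 | h0 | h0
        · have h1 : n.natAbs ∈ Ints (-1) Wandering := by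
            refine ⟨by omega, ?_⟩
            have e : (-1 : ℤ) * (n.natAbs : ℤ) = n := by omega
            rw [e]; exact hn
          rw [h (-1) (Or.inr rfl)] at h1
          exact h1
        · subst h0
          rw [hw] at hn
          exact absurd (hn 0 1 rfl) (by norm_num)
        · have h1 : n.natAbs ∈ Ints 1 Wandering := by
            refine ⟨by omega, ?_⟩
            have e : (1 : ℤ) * (n.natAbs : ℤ) = n := by omega
            rw [e]; exact hn
          rw [h 1 (Or.inl rfl)] at h1
          exact h1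
    rw [hq]
    have h1 : ∀ s : ℤ, (s = 1 ∨ s = -1) → List.TFAE [Ints s Wandering = ∅, Inf2.AC0 (Ints s Wandering),
        Inf2.Poly (Ints s Wandering), Inf2.Approx (Ints s Wandering)] := fun s hs => by
      refine Inf2.tfae_of (S := Ints s Wandering) (fun g => Inf2.AC0_none (by rw [g]; exact fun n _ h => h)) fun g => ?_
      refine large (S := {x : ℤ | Wild x}) wild_T hs (fun n hn => ?_) ?_ ⟨1, le_rfl, fun h => ?_⟩
      · show (1 ≤ n ∧ IsWanderingDomain f₀ (FatouComponent f₀ ((s * (n : ℤ) : ℤ) : ℂ))) ↔ Wild (s * (n : ℤ))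
        rw [hw]
        exact ⟨fun h => h.2, fun h => ⟨hn, h⟩⟩
      · obtain ⟨n, hn⟩ := Set.nonempty_iff_ne_empty.2 g
        exact ⟨n, hn, hn.1⟩
      · have h2 : Wild (s * ((1 : ℕ) : ℤ)) := (hw _).1 h.2
        rcases hs with rfl | rfl
        · exact absurd (h2 0 2 (by decide)) (by norm_num)
        · exact absurd (h2 0 1 (by decide)) (by norm_num)
    tfae_have 1 → 2 := fun h s hs => ((h1 s hs).out 0 1).1 (h s hs)
    tfae_have 2 → 3 := fun h s hs => ((h1 s hs).out 1 2).1 (h s hs)
    tfae_have 3 → 4 := fun h s hs => ((h1 s hs).out 2 3).1 (h s hs)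
    tfae_have 4 → 1 := fun h s hs => ((h1 s hs).out 3 0).1 (h s hs)
    tfae_finish

end Pool.Agent.Results.MP_071ec9_an.InvariantSetsCircuits
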