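import Pool.Graph.R_seed8.H723R2.LSWDens
import Pool.Agent.H620.Gen.Side

/-!
# Integers in completely invariant sets of an entire `3x+1` map are not near to morphic sets

Let `f₀` be the entire function of Letherman, Schleicher and Wood which interpolates the `3x+1` map on the integers. For a set
`V` of complex numbers and `s = 1` or `s = -1` let `Ints s V` be the set of the positive integers `n` with `s n ∈ V`. A set of
integers is called morphic if its indicator sequence is a morphic word: the image, under a map from the letters to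
`{0, 1}`, of the infinite fixed point of a morphism `σ` with `σ(a) = a u`, over a finite alphabet. The automatic sets in all
bases are morphic, and so are the unions of arithmetic progressions, the set of the squares, etc.

Theorem. (1) Let `V` be completely invariant under `f₀`, for example a basin of attraction, the union of the Fatou components
of the backward and forward orbit of a component, or of all wandering domains, the escaping set, or any union of such sets.
Then `Ints s V` is empty, or the set of all positive integers, or it is far from all morphic sets: for each morphic set `R`,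
each `a > 1` and each `K`, for infinitely many `N` more than `K N / (√log N (log log N) ^ a)` of the `n ≤ N` are in exactly one of
the sets `Ints s V` and `R`.

(2) Unconditionally, the set of the `n` such that `-n` is in the basin of attraction of the superattracting cycle of `-1`,
of `-5` or of `-17` is far from all morphic sets.

(3) No integer is in a wandering domain of `f₀` (this is Q1) if and only if for both signs the set of the `n` such that `s n`
is in a wandering domain agrees with some morphic set up to `O (N / (√log N (log log N) ^ a))` exceptions, for some `a > 1`.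

Proof. Let `C w N` be the number of the `i < N` with `w i ≠ w (i+1)`. For an invariant set this is `O (N / √log N)` (coalescence
of the orbits of neighbours), so `C w N = o(N)` if `w` is near to an invariant set. For a morphic word `w` this
implies `C w N = O (N / log N)`: the numbers `f k` of letters and `g k` of changes in the `k`-th image of the first letter are of
the form `u (T ^ k v)` for linear maps `T` of finite dimensional spaces, and two such sequences with `g k = o (f k)` have
`g k = O (f k / k)`. But the boundary of a nontrivial invariant set is not so thin (`Gen.side_not_thin`).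
-/

set_option autoImplicit false

namespace Pool.Agent.Results.MP_071ec9_an.InvariantSetsMorphic

open Filter Topology
open Pool.Agent.H384R2.Fatou

/-- The entire function of Letherman, Schleicher and Wood; `f₀ n = T n` for every integer `n`, where `T` is the `3x+1` function. -/
noncomputable def f₀ (z : ℂ) : ℂ :=
  z / 2 + (z + 1 / 2) * ((1 - Complex.cos (Real.pi * z)) / 2) +
    1 / Real.pi * (1 / 2 - Complex.cos (Real.pi * z)) * Complex.sin (Real.pi * z)

/-- The positive integers `n` such that `s n` is in the set `V` of complex numbers, for `s = 1` or `s = -1`. -/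
def Ints (s : ℤ) (V : Set ℂ) : Set ℕ := {n | 1 ≤ n ∧ (((s * (n : ℤ) : ℤ)) : ℂ) ∈ V}

/-- The basin of attraction of the cycle of `a`: `a` is a periodic point, and the orbit of `z` converges to its cycle. -/
def Basin (a : ℂ) : Set ℂ :=
  {z | ∃ p k : ℕ, 0 < p ∧ f₀^[p] a = a ∧ Tendsto (fun m : ℕ => f₀^[k + p * m] z) atTop (𝓝 a)}

/-- The complex numbers whose Fatou component is a wandering domain of `f₀`. -/
def Wandering : Set ℂ := {z | IsWanderingDomain f₀ (FatouComponent f₀ z)}

/-- The image of a word `W` under the morphism that replaces each letter `b` by the word `σ b`. -/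
def subst {A : Type} (σ : A → List A) (W : List A) : List A := W.flatMap σ

/-- Morphic sets: there are a finite alphabet `A`, a morphism `σ` with nonempty words `σ b`, a letter `a` such that
`σ a` is `a` followed by a nonempty word, and a set `G` of letters such that `i ∈ R` if and only if the letter with
the index `i` of `σ ^ k a` is in `G`, for all `k` and all indices `i` of letters of `σ ^ k a`. -/
def Morphic (R : Set ℕ) : Prop :=
  ∃ (A : Type) (_ : Finite A) (σ : A → List A) (a : A) (G : A → Prop), (∀ b, σ b ≠ []) ∧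
    (∃ u, u ≠ [] ∧ σ a = a :: u) ∧
    ∀ (k i : ℕ) (hi : i < ((subst σ)^[k] [a]).length), i ∈ R ↔ G ((subst σ)^[k] [a])[i]

/-- The number of the integers `1 ≤ n ≤ N` which are in exactly one of the sets `S`, `R`. -/
noncomputable def mism (S R : Set ℕ) (N : ℕ) : ℕ := {n : ℕ | 1 ≤ n ∧ n ≤ N ∧ ¬ (n ∈ S ↔ n ∈ R)}.ncard

/-- The bound `N / (√log N (log log N) ^ a)`. -/
noncomputable def h (a : ℝ) (N : ℕ) : ℝ := N / (√(Real.log N) * Real.log (Real.log N) ^ a)

/-- `S` is far from all morphic sets: for each morphic set `R`, each `a > 1` and each `K`, for infinitely many `N` more than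
`K N / (√log N (log log N) ^ a)` of the integers `1 ≤ n ≤ N` are in exactly one of the sets `S`, `R`. -/
def Far (S : Set ℕ) : Prop :=
  ∀ R : Set ℕ, Morphic R → ∀ a : ℝ, 1 < a → ∀ K : ℝ, ∃ᶠ N : ℕ in atTop, K * h a N < mism S R N

/-- `S` is near to some morphic set: up to `O (N / (√log N (log log N) ^ a))` exceptions, for some `a > 1`. -/
def Near (S : Set ℕ) : Prop :=
  ∃ (R : Set ℕ) (a K : ℝ), Morphic R ∧ 1 < a ∧ ∀ᶠ N : ℕ in atTop, (mism S R N : ℝ) ≤ K * h a N

open Pool.Agent.H620
open Pool.Agent.H723R2.LSW (T f₀_int f₀_iter Wild wandering_iff wild_iter wild_mer Mer)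

/-- the integers of an invariant set -/
theorem far {S : Set ℤ} (hS : ∀ x : ℤ, x ∈ S ↔ T x ∈ S) {s : ℤ} (hs : s = 1 ∨ s = -1) {A : Set ℕ}
    (hA : ∀ n : ℕ, 1 ≤ n → (n ∈ A ↔ s * (n : ℤ) ∈ S)) (h1 : ∃ n ∈ A, 1 ≤ n) (h2 : ∃ n, 1 ≤ n ∧ n ∉ A) : Far A := by
  obtain ⟨m, hmA, hm⟩ := h1
  obtain ⟨m', hm', hmA'⟩ := h2
  have hss : s * s = 1 := by rcases hs with rfl | rfl <;> norm_num
  have hinv : Pool.Agent.H499R2.ND.Inv 1 S := hS
  intro R hR a ha K
  by_contra hcon
  rw [not_frequently] at hcon
  refine Gen.side_not_near hs hinv ⟨s * m, ?_, (hA m hm).1 hmA⟩ ⟨s * m', ?_, fun g => hmA' ((hA m' hm').2 g)⟩ ha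
    (w := fun n => n ∈ R) hR K ?_
  · rw [← mul_assoc, hss, one_mul]; exact_mod_cast hm
  · rw [← mul_assoc, hss, one_mul]; exact_mod_cast hm'
  · filter_upwards [hcon] with N hN
    have h3 := not_lt.1 hN
    have e : mism A R N = {n : ℕ | 1 ≤ n ∧ n ≤ N ∧ ¬ (s * (n : ℤ) ∈ S ↔ n ∈ R)}.ncard := by
      unfold mism
      congr 1
      ext n
      simp only [Set.mem_ofPred_eq]
      constructor
      · rintro ⟨g1, g2, g3⟩
        exact ⟨g1, g2, by rw [← hA n g1]; exact g3⟩
      · rintro ⟨g1, g2, g3⟩
        exact ⟨g1, g2, by rw [hA n g1]; exact g3⟩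
    rw [e] at h3
    exact h3

theorem near_empty {S : Set ℕ} (hS : S = ∅) : Near S := by
  have h1 : Morphic (∅ : Set ℕ) := by
    refine ⟨Unit, inferInstance, fun _ => [(), ()], (), fun _ => False, by simp, ⟨[()], by simp, rfl⟩, ?_⟩
    intro k i hi
    exact Iff.rfl
  refine ⟨∅, 2, 0, h1, by norm_num, Eventually.of_forall fun N => ?_⟩
  have : {n : ℕ | 1 ≤ n ∧ n ≤ N ∧ ¬ (n ∈ S ↔ n ∈ (∅ : Set ℕ))} = ∅ := by
    ext n
    rw [hS]
    simp
  unfold mism
  rw [this]
  simp

theorem not_near_of_far {S : Set ℕ} (h1 : Far S) (h2 : Near S) : False := by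
  obtain ⟨R, a, K, hR, ha, hK⟩ := h2
  obtain ⟨N, h3, h4⟩ := ((h1 R hR a ha K).and_eventually hK).exists
  exact absurd h4 (not_le.2 h3)

theorem wild_T (x : ℤ) : Wild x ↔ Wild (T x) := by
  constructor
  · intro h
    exact wild_iter h 1
  · intro h
    exact wild_mer (a := T x) (b := x) ⟨0, 1, rfl⟩ h

theorem basin_T (a z : ℂ) : z ∈ Basin a ↔ f₀ z ∈ Basin a := by
  constructor
  · rintro ⟨p, k, hp, ha, h⟩
    refine ⟨p, k + (p - 1), hp, ha, ?_⟩
    have h1 := (tendsto_add_atTop_iff_nat (f := fun m : ℕ => f₀^[k + p * m] z) 1).2 h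
    refine h1.congr fun m => ?_
    rw [← Function.iterate_succ_apply]
    congr 2
    rw [mul_add, mul_one]
    omega
  · rintro ⟨p, k, hp, ha, h⟩
    refine ⟨p, k + 1, hp, ha, h.congr fun m => ?_⟩
    rw [← Function.iterate_succ_apply]
    congr 2
    omega

theorem f₀_iterate (n : ℤ) (k : ℕ) : f₀^[k] (n : ℂ) = ((T^[k] n : ℤ) : ℂ) := f₀_iter n k

theorem basin_int {a n : ℤ} : (n : ℂ) ∈ Basin a → ∃ k, T^[k] n = a := by
  rintro ⟨p, k, _, _, h⟩
  have h1 : ∀ᶠ m : ℕ in atTop, dist (f₀^[k + p * m] (n : ℂ)) (a : ℂ) < 1 := (Metric.tendsto_nhds.1 h) 1 one_pos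
  obtain ⟨m, hm⟩ := h1.exists
  refine ⟨k + p * m, ?_⟩
  rw [f₀_iterate, dist_eq_norm] at hm
  have h2 : ‖((T^[k + p * m] n - a : ℤ) : ℂ)‖ < 1 := by push_cast; exact hm
  rw [Complex.norm_intCast] at h2
  have h3 : |T^[k + p * m] n - a| < 1 := by exact_mod_cast h2
  have h4 := Int.abs_lt_one_iff.1 h3
  omega

theorem basin_self {a : ℤ} {p : ℕ} (hp : 0 < p) (ha : T^[p] a = a) : (a : ℂ) ∈ Basin a := by
  have h1 : f₀^[p] (a : ℂ) = a := by rw [f₀_iterate, ha]
  refine ⟨p, 0, hp, h1, ?_⟩
  have h2 : ∀ m : ℕ, f₀^[0 + p * m] (a : ℂ) = a := by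
    intro m
    rw [zero_add, Function.iterate_mul]
    exact Function.iterate_fixed h1 m
  simp only [h2]
  exact tendsto_const_nhds

/-- (1) Let `V` be completely invariant under `f₀`. For `s = 1` and `s = -1` the set of the positive integers `n` with
`s n ∈ V` is empty, or the set of all positive integers, or far from all morphic sets.

(2) The sets of the positive integers `n` such that `-n` is in the basin of attraction of `-1`, `-5` or `-17` are far from
all morphic sets.

(3) No integer is in a wandering domain of `f₀` (Q1) if and only if for both signs `s` the set of the `n` such that `s n` is in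
a wandering domain is near to a morphic set. -/
theorem result :
    (∀ V : Set ℂ, (∀ z, z ∈ V ↔ f₀ z ∈ V) → ∀ s : ℤ, (s = 1 ∨ s = -1) →
      Ints s V = ∅ ∨ Ints s V = {n | 1 ≤ n} ∨ Far (Ints s V)) ∧
    (∀ a : ℤ, (a = -1 ∨ a = -5 ∨ a = -17) → Far (Ints (-1) (Basin a))) ∧
    ((∀ n : ℤ, ¬ IsWanderingDomain f₀ (FatouComponent f₀ n)) ↔
      ∀ s : ℤ, (s = 1 ∨ s = -1) → Near (Ints s Wandering)) := by
  have hInt : ∀ (s : ℤ) (V : Set ℂ) (n : ℕ), 1 ≤ n →
      (n ∈ Ints s V ↔ s * (n : ℤ) ∈ {x : ℤ | (x : ℂ) ∈ V}) := fun s V n hn => ⟨fun h => h.2, fun h => ⟨hn, h⟩⟩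
  have hinv : ∀ V : Set ℂ, (∀ z, z ∈ V ↔ f₀ z ∈ V) → ∀ x : ℤ, x ∈ {x : ℤ | (x : ℂ) ∈ V} ↔ T x ∈ {x : ℤ | (x : ℂ) ∈ V} := by
    intro V hV x
    show (x : ℂ) ∈ V ↔ ((T x : ℤ) : ℂ) ∈ V
    rw [hV x]
    have : f₀ (x : ℂ) = ((T x : ℤ) : ℂ) := f₀_int x
    rw [this]
  refine ⟨fun V hV s hs => ?_, fun a ha => ?_, ?_⟩
  · by_cases h1 : Ints s V = ∅
    · exact Or.inl h1
    · by_cases h2 : Ints s V = {n | 1 ≤ n}
      · exact Or.inr (Or.inl h2)
      · right; right
        refine far (hinv V hV) hs (hInt s V) ?_ ?_
        · obtain ⟨n, hn⟩ := Set.nonempty_iff_ne_empty.2 h1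
          exact ⟨n, hn, hn.1⟩
        · by_contra hcon
          push Not at hcon
          exact h2 (Set.Subset.antisymm (fun n hn => hn.1) fun n hn => hcon n hn)
  · refine far (hinv (Basin a) (basin_T a)) (Or.inr rfl) (hInt (-1) (Basin a)) ?_ ?_
    · have hper : ∃ p : ℕ, 0 < p ∧ T^[p] a = a := by
        rcases ha with rfl | rfl | rfl
        · exact ⟨1, by norm_num, by decide⟩
        · exact ⟨3, by norm_num, by decide⟩
        · exact ⟨11, by norm_num, by decide⟩
      obtain ⟨p, hp, hpa⟩ := hper
      have hneg : a < 0 := by rcases ha with rfl | rfl | rfl <;> norm_num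
      refine ⟨a.natAbs, ⟨by omega, ?_⟩, by omega⟩
      have e : (-1 : ℤ) * (a.natAbs : ℤ) = a := by omega
      rw [e]
      exact basin_self hp hpa
    · by_cases h1 : a = -1
      · subst h1
        refine ⟨5, by norm_num, fun h => ?_⟩
        obtain ⟨k, hk⟩ := basin_int h.2
        have h2 : ∀ k : ℕ, T^[k] ((-1 : ℤ) * ((5 : ℕ) : ℤ)) = -5 ∨ T^[k] ((-1 : ℤ) * ((5 : ℕ) : ℤ)) = -7 ∨
            T^[k] ((-1 : ℤ) * ((5 : ℕ) : ℤ)) = -10 := by
          intro k
          induction k with
          | zero => left; rfl
          | succ k ih =>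
            rw [Function.iterate_succ_apply']
            rcases ih with h | h | h
            · right; left; rw [h]; rfl
            · right; right; rw [h]; rfl
            · left; rw [h]; rfl
        have h3 := h2 k
        rw [hk] at h3
        omega
      · refine ⟨1, by norm_num, fun h => ?_⟩
        obtain ⟨k, hk⟩ := basin_int h.2
        have h2 : ∀ k : ℕ, T^[k] ((-1 : ℤ) * ((1 : ℕ) : ℤ)) = -1 := by
          intro k
          induction k with
          | zero => rfl
          | succ k ih => rw [Function.iterate_succ_apply', ih]; rfl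
        rw [h2 k] at hk
        exact h1 hk.symm
  · have hw : ∀ x : ℤ, IsWanderingDomain f₀ (FatouComponent f₀ x) ↔ Wild x := fun x => wandering_iff x
    have hq : (∀ n : ℤ, ¬ IsWanderingDomain f₀ (FatouComponent f₀ n)) ↔
        ∀ s : ℤ, (s = 1 ∨ s = -1) → Ints s Wandering = ∅ := by
      constructor
      · intro h s _
        rw [Set.eq_empty_iff_forall_notMem]
        rintro n ⟨_, hn⟩
        exact h _ hn
      · intro h n hn
        rcases lt_trichotomy n 0 with h0 | h0 | h0
        · have h1 : n.natAbs ∈ Ints (-1) Wandering := by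
            refine ⟨by omega, ?_⟩
            have e : (-1 : ℤ) * (n.natAbs : ℤ) = n := by omega
            rw [e]; exact hn
          rw [h (-1) (Or.inr rfl)] at h1
          exact h1
        · subst h0
          rw [hw] at hn
          exact absurd (hn 0 1 rfl) (by norm_num)
        · have h1 : n.natAbs ∈ Ints 1 Wandering := by
            refine ⟨by omega, ?_⟩
            have e : (1 : ℤ) * (n.natAbs : ℤ) = n := by omega
            rw [e]; exact hn
          rw [h 1 (Or.inl rfl)] at h1
          exact h1
    rw [hq]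
    constructor
    · intro h s hs
      exact near_empty (h s hs)
    · intro h s hs
      by_contra g
      refine not_near_of_far ?_ (h s hs)
      refine far (S := {x : ℤ | Wild x}) wild_T hs (fun n hn => ?_) ?_ ⟨1, le_rfl, fun h => ?_⟩
      · show (1 ≤ n ∧ IsWanderingDomain f₀ (FatouComponent f₀ ((s * (n : ℤ) : ℤ) : ℂ))) ↔ Wild (s * (n : ℤ))
        rw [hw]
        exact ⟨fun h => h.2, fun h => ⟨hn, h⟩⟩
      · obtain ⟨n, hn⟩ := Set.nonempty_iff_ne_empty.2 g
        exact ⟨n, hn, hn.1⟩
      · have h2 : Wild (s * ((1 : ℕ) : ℤ)) := (hw _).1 h.2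
        rcases hs with rfl | rfl
        · exact absurd (h2 0 2 (by decide)) (by norm_num)
        · exact absurd (h2 0 1 (by decide)) (by norm_num)

end Pool.Agent.Results.MP_071ec9_an.InvariantSetsMorphic
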